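import Mathlib

set_option autoImplicit false
open Set Filter Topology MeasureTheory

namespace Pool.Agent.H.MP_ab521b_an

variable {S : Type} [TopologicalSpace S] [CompactSpace S] [T2Space S] [MeasurableSpace S] [BorelSpace S]

omit [T2Space S] in
lemma ci {E : Type} [NormedAddCommGroup E] (ν : Measure S) [IsFiniteMeasure ν] {f : S → E}
    (h : Continuous f) : Integrable f ν := h.integrable_of_hasCompactSupport (.of_compactSpace _)

omit [T2Space S] in
lemma dct (ν : Measure S) [IsFiniteMeasure ν] {w : S → ℂ} {ψ : S → ℝ} (hw : Continuous w)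
    (hψ : Continuous ψ) (h : ∀ u, w u = 1 ∨ ‖w u‖ < 1) :
    Tendsto (fun N : ℕ => ∫ u, ψ u * w u ^ N ∂ν) atTop
      (𝓝 ((∫ u, indicator {u | w u = 1} ψ u ∂ν : ℝ) : ℂ)) := by
  rw [← integral_complex_ofReal]
  refine tendsto_integral_of_dominated_convergence (fun u => ‖ψ u‖)
    (fun N => Continuous.aestronglyMeasurable (by fun_prop)) (ci ν hψ.norm)
    (fun N => .of_forall fun u => ?_) (.of_forall fun u => ?_)
  · rw [norm_mul, norm_pow, Complex.norm_real]
    refine mul_le_of_le_one_right (norm_nonneg _) (pow_le_one₀ (norm_nonneg _) ?_)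
    rcases h u with h | h
    · simp [h]
    · exact h.le
  · by_cases e : w u = 1
    · simp [e]
    · simpa [e] using (tendsto_pow_atTop_nhds_zero_of_norm_lt_one
        ((h u).resolve_left e)).const_mul (ψ u : ℂ)

variable {σ μ : Measure S} [IsFiniteMeasure σ] [IsProbabilityMeasure μ] [σ.IsOpenPosMeasure]
  {t : S → ℝ} {z : S → ℂ}

omit [T2Space S] in
lemma est (ht : Continuous t) (hz : Continuous z) (t0 : ∀ u, 0 ≤ t u) (t1 : ∀ u, t u ≤ 1)
    (z1 : ∀ u, ‖z u‖ ≤ 1) (ts : ∀ x ∈ Icc (0 : ℝ) 1, ∃ u, t u = x)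
    (H : ∀ (k : ℕ) (φ : ℝ → ℝ), Continuous φ → ∫ u, t u ^ k * φ (t u) ∂σ = 0 →
      ∫ u, t u ^ (k + 1) * φ (t u) ∂σ = 0 → ∫ u, z u ^ k * φ (‖z u‖ ^ 2) ∂μ = 0)
    {s : ℝ} (s0 : 0 < s) (s1 : s < 1) : ∃ C : ℝ, ∀ (k : ℕ) (φ : ℝ → ℝ), Continuous φ →
      ‖∫ u, z u ^ k * φ (‖z u‖ ^ 2) ∂μ‖ ≤ C / s ^ k * ∫ u, t u ^ k * |φ (t u)| ∂σ := by
  obtain ⟨d, d0, hd⟩ : ∃ d, 0 < d ∧ s + 3 * d = 1 := ⟨(1 - s) / 3, by linarith, by ring⟩
  let p := fun x : ℝ => max 0 (min (x - s) (s + d - x))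
  let q := fun x : ℝ => max 0 (x - (s + 2 * d))
  have pc : Continuous p := by fun_prop
  have qc : Continuous q := by fun_prop
  have p0 : ∀ x, 0 ≤ p x := fun _ => le_max_left _ _
  have q0 : ∀ x, 0 ≤ q x := fun _ => le_max_left _ _
  have p1 : ∀ x, p x = 0 ∨ s ≤ x ∧ x ≤ s + d := fun x => by simp only [p]; grind
  have q1 : ∀ x, q x = 0 ∨ s + 2 * d ≤ x := fun x => by simp only [q]; grind
  have P0 : 0 < ∫ u, p (t u) ∂σ := by
    obtain ⟨u, hu⟩ := ts (s + d / 2) ⟨by linarith, by linarith⟩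
    exact (pc.comp ht).integral_pos_of_hasCompactSupport_nonneg_nonzero (.of_compactSpace _)
      (fun _ => p0 _) (x := u) (by simp only [Function.comp, hu, p]; grind)
  have Q0 : 0 < ∫ u, q (t u) ∂σ := by
    obtain ⟨u, hu⟩ := ts 1 ⟨by linarith, by linarith⟩
    exact (qc.comp ht).integral_pos_of_hasCompactSupport_nonneg_nonzero (.of_compactSpace _)
      (fun _ => q0 _) (x := u) (by simp only [Function.comp, hu, q]; grind)
  refine ⟨2 / (d * ∫ u, p (t u) ∂σ) + 2 / (d * ∫ u, q (t u) ∂σ), fun k φ hφ => ?_⟩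
  have mo : ∀ {f g : S → ℝ}, Continuous f → Continuous g → (∀ u, f u ≤ g u) →
      ∫ u, f u ∂σ ≤ ∫ u, g u ∂σ := fun hf hg h => integral_mono (ci σ hf) (ci σ hg) h
  have lo : ∀ r : ℝ → ℝ, Continuous r → (∀ x, 0 ≤ r x) → (∀ x, r x = 0 ∨ s ≤ x) →
      s ^ k * ∫ u, r (t u) ∂σ ≤ ∫ u, t u ^ k * r (t u) ∂σ := fun r rc r0 r1 => by
    rw [← integral_const_mul]
    refine mo (by fun_prop) (by fun_prop) fun u => ?_
    rcases r1 (t u) with h | h
    · simp [h]
    · have := r0 (t u); gcongr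
  have a1 := lo p pc p0 fun x => (p1 x).imp_right And.left
  have a2 := lo q qc q0 fun x => (q1 x).imp_right fun h => by linarith
  have b1 : ∫ u, t u ^ (k + 1) * p (t u) ∂σ ≤ (s + d) * ∫ u, t u ^ k * p (t u) ∂σ := by
    rw [← integral_const_mul]
    refine mo (by fun_prop) (by fun_prop) fun u => ?_
    rcases p1 (t u) with h | h
    · simp [h]
    · have := mul_nonneg (pow_nonneg (t0 u) k) (p0 (t u)); rw [pow_succ]; nlinarith
  have b1' : 0 ≤ ∫ u, t u ^ (k + 1) * p (t u) ∂σ :=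
    integral_nonneg fun u => mul_nonneg (pow_nonneg (t0 u) _) (p0 _)
  have b2 : (s + 2 * d) * ∫ u, t u ^ k * q (t u) ∂σ ≤ ∫ u, t u ^ (k + 1) * q (t u) ∂σ := by
    rw [← integral_const_mul]
    refine mo (by fun_prop) (by fun_prop) fun u => ?_
    rcases q1 (t u) with h | h
    · simp [h]
    · have := mul_nonneg (pow_nonneg (t0 u) k) (q0 (t u)); rw [pow_succ]; nlinarith
  have b2' : ∫ u, t u ^ (k + 1) * q (t u) ∂σ ≤ ∫ u, t u ^ k * q (t u) ∂σ :=
    mo (by fun_prop) (by fun_prop) fun u => by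
      have := mul_nonneg (pow_nonneg (t0 u) k) (q0 (t u)); rw [pow_succ]; nlinarith [t1 u]
  have l0 : |∫ u, t u ^ k * φ (t u) ∂σ| ≤ ∫ u, t u ^ k * |φ (t u)| ∂σ :=
    abs_integral_le_integral_abs.trans_eq (by simp [abs_mul, abs_of_nonneg (t0 _)])
  have l1 : |∫ u, t u ^ (k + 1) * φ (t u) ∂σ| ≤ ∫ u, t u ^ k * |φ (t u)| ∂σ :=
    abs_integral_le_integral_abs.trans (mo (by fun_prop) (by fun_prop) fun u => by
      have := mul_nonneg (pow_nonneg (t0 u) k) (abs_nonneg (φ (t u)))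
      rw [abs_mul, abs_of_nonneg (pow_nonneg (t0 u) _), pow_succ]; nlinarith [t1 u])
  have sp : ∀ (j : ℕ) (α γ : ℝ), ∫ u, t u ^ j * (φ (t u) - α * p (t u) - γ * q (t u)) ∂σ =
      ∫ u, t u ^ j * φ (t u) ∂σ - α * ∫ u, t u ^ j * p (t u) ∂σ - γ * ∫ u, t u ^ j * q (t u) ∂σ :=
    fun j α γ => by
      rw [← integral_const_mul, ← integral_const_mul, ← integral_sub (ci σ (by fun_prop)) (ci σ (by fun_prop)),
        ← integral_sub (ci σ (by fun_prop)) (ci σ (by fun_prop))]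
      congr 1; ext; ring
  have sk : 0 < s ^ k := by positivity
  have nz : ∀ r : ℝ → ℝ, Continuous r → (∀ x ≤ 1, |r x| ≤ 1) → ‖∫ u, z u ^ k * r (‖z u‖ ^ 2) ∂μ‖ ≤ 1 :=
    fun r rc r1 => by
      simpa using norm_integral_le_of_norm_le_const (μ := μ) (C := 1)
        (f := fun u => z u ^ k * r (‖z u‖ ^ 2)) (.of_forall fun u => by
          rw [norm_mul, norm_pow, Complex.norm_real]
          exact mul_le_one₀ (pow_le_one₀ (norm_nonneg _) (z1 u)) (norm_nonneg _)
            (r1 _ (pow_le_one₀ (norm_nonneg _) (z1 u))))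
  have n1 := nz p pc fun x hx => by simp only [p]; grind
  have n2 := nz q qc fun x hx => by simp only [q]; grind
  have hH := fun α γ : ℝ => H k (fun x => φ x - α * p x - γ * q x) (by fun_prop)
  simp only [sp] at hH
  generalize ∫ u, t u ^ k * p (t u) ∂σ = A1 at *
  generalize ∫ u, t u ^ k * q (t u) ∂σ = A2 at *
  generalize ∫ u, t u ^ (k + 1) * p (t u) ∂σ = B1 at *
  generalize ∫ u, t u ^ (k + 1) * q (t u) ∂σ = B2 at *
  generalize ∫ u, t u ^ k * φ (t u) ∂σ = L0 at *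
  generalize ∫ u, t u ^ (k + 1) * φ (t u) ∂σ = L1 at *
  generalize ∫ u, t u ^ k * |φ (t u)| ∂σ = L at *
  generalize ∫ u, p (t u) ∂σ = P at *
  generalize ∫ u, q (t u) ∂σ = Q at *
  have A10 : 0 < A1 := (mul_pos sk P0).trans_le a1
  have A20 : 0 < A2 := (mul_pos sk Q0).trans_le a2
  have L0' : 0 ≤ L := (abs_nonneg _).trans l0
  have D : d * A1 * A2 ≤ A1 * B2 - A2 * B1 := by nlinarith
  have D0 : 0 < A1 * B2 - A2 * B1 := lt_of_lt_of_le (by positivity) D
  have e := hH ((L0 * B2 - L1 * A2) / (A1 * B2 - A2 * B1)) ((L1 * A1 - L0 * B1) / (A1 * B2 - A2 * B1))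
    (by rw [div_mul_eq_mul_div, div_mul_eq_mul_div, sub_sub, ← add_div, sub_eq_zero, eq_div_iff D0.ne']; ring)
    (by rw [div_mul_eq_mul_div, div_mul_eq_mul_div, sub_sub, ← add_div, sub_eq_zero, eq_div_iff D0.ne']; ring)
  have c1 : |(L0 * B2 - L1 * A2) / (A1 * B2 - A2 * B1)| ≤ 2 / (d * P) / s ^ k * L := by
    have : |L0 * B2 - L1 * A2| ≤ 2 * L * A2 := by
      have : 0 ≤ B2 := le_trans (by positivity) b2
      rw [abs_le] at *; constructor <;> nlinarith
    rw [abs_div, abs_of_pos D0]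
    calc _ ≤ 2 * L * A2 / (d * (s ^ k * P) * A2) := by
          gcongr; exact le_trans (by gcongr) D
      _ = _ := by field_simp
  have c2 : |(L1 * A1 - L0 * B1) / (A1 * B2 - A2 * B1)| ≤ 2 / (d * Q) / s ^ k * L := by
    have : |L1 * A1 - L0 * B1| ≤ 2 * L * A1 := by
      have : B1 ≤ A1 := by nlinarith
      rw [abs_le] at *; constructor <;> nlinarith
    rw [abs_div, abs_of_pos D0]
    calc _ ≤ 2 * L * A1 / (d * A1 * (s ^ k * Q)) := by
          gcongr; exact le_trans (by gcongr) D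
      _ = _ := by field_simp
  generalize (L0 * B2 - L1 * A2) / (A1 * B2 - A2 * B1) = α at *
  generalize (L1 * A1 - L0 * B1) / (A1 * B2 - A2 * B1) = γ at *
  have : ∫ u, z u ^ k * φ (‖z u‖ ^ 2) ∂μ = α * ∫ u, z u ^ k * p (‖z u‖ ^ 2) ∂μ +
      γ * ∫ u, z u ^ k * q (‖z u‖ ^ 2) ∂μ := by
    rw [← integral_const_mul, ← integral_const_mul, ← integral_add (ci μ (by fun_prop)) (ci μ (by fun_prop)),
      ← sub_eq_zero, ← integral_sub (ci μ (by fun_prop)) (ci μ (by fun_prop)), ← e]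
    congr 1; ext; push_cast; ring
  rw [this, add_div, add_mul]
  refine (norm_add_le _ _).trans (add_le_add ?_ ?_) <;> rw [norm_mul, Complex.norm_real]
  · exact (mul_le_of_le_one_right (norm_nonneg _) n1).trans c1
  · exact (mul_le_of_le_one_right (norm_nonneg _) n2).trans c2

omit [T2Space S] in
lemma nul (ν : Measure S) [IsFiniteMeasure ν] {w : S → ℂ} {ψ : S → ℝ} (hw : Continuous w)
    (hψ : Continuous ψ) (h : ∀ u, w u = 1 ∨ ‖w u‖ < 1) (p0 : ∀ u, 0 ≤ ψ u)
    (h0 : Tendsto (fun N : ℕ => ∫ u, ψ u * w u ^ N ∂ν) atTop (𝓝 0)) :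
    ν {u | w u = 1 ∧ ψ u ≠ 0} = 0 := by
  have := Complex.ofReal_eq_zero.1 (tendsto_nhds_unique (dct ν hw hψ h) h0)
  rw [integral_eq_zero_iff_of_nonneg (fun u => indicator_nonneg (fun u _ => p0 u) u)
    ((ci ν hψ).indicator (isClosed_eq hw continuous_const).measurableSet)] at this
  refine measure_mono_null (fun u hu => ?_) this
  simp [hu.1, hu.2]

omit [T2Space S] in
lemma core (ht : Continuous t) (hz : Continuous z) (t0 : ∀ u, 0 ≤ t u) (t1 : ∀ u, t u ≤ 1)
    (z1 : ∀ u, ‖z u‖ ≤ 1) (ts : ∀ x ∈ Icc (0 : ℝ) 1, ∃ u, t u = x) (tn : σ {u | t u = 0 ∨ t u = 1} = 0)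
    (H : ∀ (k : ℕ) (φ : ℝ → ℝ), Continuous φ → ∫ u, t u ^ k * φ (t u) ∂σ = 0 →
      ∫ u, t u ^ (k + 1) * φ (t u) ∂σ = 0 → ∫ u, z u ^ k * φ (‖z u‖ ^ 2) ∂μ = 0) :
    μ {u | (z u).re = 0} = 0 := by
  have W : ∀ x : ℝ, 0 ≤ x → x ≤ 1 → (((1 - 2 * x) ^ 2 : ℝ) : ℂ) = 1 ∨ ‖(((1 - 2 * x) ^ 2 : ℝ) : ℂ)‖ < 1 :=
    fun x h0 h1 => by
      rw [Complex.norm_real, Real.norm_of_nonneg (sq_nonneg _), Complex.ofReal_eq_one]
      exact LE.le.eq_or_lt (by nlinarith)
  have z2 : ∀ u, ‖z u‖ ^ 2 ≤ 1 := fun u => pow_le_one₀ (norm_nonneg _) (z1 u)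
  have A : μ {u | (((1 - 2 * ‖z u‖ ^ 2) ^ 2 : ℝ) : ℂ) = 1 ∧ (1 : ℝ) ≠ 0} = 0 := by
    obtain ⟨C, hC⟩ := est ht hz t0 t1 z1 ts H one_half_pos one_half_lt_one
    refine nul μ (by fun_prop) continuous_const (fun u => W _ (sq_nonneg _) (z2 u)) (fun _ => one_pos.le) ?_
    have := dct σ (w := fun u => (((1 - 2 * t u) ^ 2 : ℝ) : ℂ)) (ψ := fun _ => 1) (by fun_prop)
      continuous_const fun u => W _ (t0 u) (t1 u)
    rw [integral_eq_zero_of_ae (measure_mono_null (fun u hu => ?_) tn)] at this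
    · have k := this.norm.const_mul |C|
      rw [Complex.ofReal_zero, norm_zero, mul_zero] at k
      refine squeeze_zero_norm (fun N => ?_) k
      have := hC 0 (fun x => ((1 - 2 * x) ^ 2) ^ N) (by fun_prop)
      have e : ∀ x : ℝ, |((1 - 2 * x) ^ 2) ^ N| = ((1 - 2 * x) ^ 2) ^ N := fun x =>
        abs_of_nonneg (by positivity)
      simp only [pow_zero, one_mul, div_one, e] at this
      simp only [Complex.ofReal_one, one_mul, ← Complex.ofReal_pow, integral_complex_ofReal,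
        Complex.norm_real, Real.norm_eq_abs] at this ⊢
      exact this.trans ((le_abs_self _).trans_eq (abs_mul _ _))
    · by_contra hh
      refine hu (indicator_of_notMem (fun h => hh ?_) _)
      have : (1 - 2 * t u) ^ 2 = 1 := Complex.ofReal_eq_one.1 h
      have : t u * (t u - 1) = 0 := by nlinarith
      simpa [sub_eq_zero] using this
  have B : ∀ δ s : ℝ, 0 < δ → 0 < s → s < 1 → μ {u | (1 - z u ^ 2 * (max (‖z u‖ ^ 2) δ)⁻¹) / 2 = 1 ∧
      max 0 (min (‖z u‖ ^ 2 - δ) (s - ‖z u‖ ^ 2)) ≠ 0} = 0 := fun δ s d0 s0 s1 => by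
    obtain ⟨C, hC⟩ := est ht hz t0 t1 z1 ts H (by linarith : 0 < (1 + s) / 2) (by linarith)
    refine nul μ (by fun_prop (disch := intros; positivity)) (by fun_prop (disch := intros; positivity)) (fun u => ?_) (fun _ => le_max_left _ _) ?_
    · have : ‖z u ^ 2 * (max (‖z u‖ ^ 2) δ)⁻¹‖ ≤ 1 := by
        have := d0.trans_le (le_max_right (‖z u‖ ^ 2) δ)
        rw [norm_mul, norm_pow, Complex.norm_real, Real.norm_of_nonneg (by positivity),
          mul_inv_le_iff₀ this, one_mul]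
        exact le_max_left _ _
      generalize z u ^ 2 * (max (‖z u‖ ^ 2) δ)⁻¹ = ζ at *
      rw [← sq_le_one_iff₀ (norm_nonneg _), Complex.sq_norm, Complex.normSq_apply] at this
      by_cases e : ζ.re = -1
      · left
        have : ζ.im = 0 := by rw [e] at this; nlinarith
        rw [show ζ = -1 from Complex.ext (by simpa) (by simpa)]; norm_num
      · right
        have : -1 < ζ.re := lt_of_le_of_ne (by nlinarith) (Ne.symm e)
        rw [← sq_lt_one_iff₀ (norm_nonneg _), Complex.sq_norm, Complex.normSq_apply]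
        simp
        nlinarith
    obtain ⟨q, hq⟩ : ∃ q, q = s / ((1 + s) / 2) ^ 2 := ⟨_, rfl⟩
    have q0 : 0 < q := by rw [hq]; positivity
    have q1 : q < 1 := by rw [hq, div_lt_one (by positivity)]; nlinarith
    have E : ∀ j : ℕ, ‖∫ u, (z u ^ 2 * (max (‖z u‖ ^ 2) δ)⁻¹) ^ j *
        (max 0 (min (‖z u‖ ^ 2 - δ) (s - ‖z u‖ ^ 2)) : ℝ) ∂μ‖ ≤ |C| * σ.real univ * q ^ j := fun j => by
      have := hC (2 * j) (fun x => (max x δ)⁻¹ ^ j * max 0 (min (x - δ) (s - x))) (by fun_prop (disch := intros; positivity))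
      simp only [pow_mul, Complex.ofReal_mul, Complex.ofReal_pow, ← mul_assoc, ← mul_pow] at this
      refine this.trans ?_
      have : ∫ u, (t u ^ 2) ^ j * |(max (t u) δ)⁻¹ ^ j * max 0 (min (t u - δ) (s - t u))| ∂σ ≤
          ∫ _, s ^ j ∂σ := integral_mono (ci σ (by fun_prop (disch := intros; positivity))) (ci σ (by fun_prop (disch := intros; positivity))) fun u => by
        have h0 := t0 u
        by_cases h : t u ≤ δ ∨ s ≤ t u
        · rw [show max 0 (min (t u - δ) (s - t u)) = 0 by grind]; simp; positivity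
        push Not at h
        simp only [max_eq_left h.1.le]
        rw [abs_of_nonneg (by positivity), ← mul_assoc, ← mul_pow, sq, mul_inv_cancel_right₀ (by linarith)]
        exact (mul_le_of_le_one_right (by positivity) (by grind)).trans (by gcongr; exact h.2.le)
      rw [integral_const, smul_eq_mul] at this
      calc _ ≤ |C| / (((1 + s) / 2) ^ 2) ^ j * (σ.real univ * s ^ j) := by
            refine mul_le_mul (by gcongr; exact le_abs_self _) this (integral_nonneg fun u => ?_)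
              (by positivity)
            positivity
        _ = _ := by rw [hq, div_pow]; ring
    refine squeeze_zero_norm (fun N => ?_) (by
      simpa using (tendsto_pow_atTop_nhds_zero_of_lt_one (by positivity : 0 ≤ (q + 1) / 2)
        (by linarith)).const_mul (|C| * σ.real univ))
    have : ∀ u, ((max 0 (min (‖z u‖ ^ 2 - δ) (s - ‖z u‖ ^ 2)) : ℝ) : ℂ) *
        ((1 - z u ^ 2 * (max (‖z u‖ ^ 2) δ)⁻¹) / 2) ^ N = ∑ j ∈ Finset.range (N + 1),
        ((-1) ^ j * N.choose j / 2 ^ N) * ((z u ^ 2 * (max (‖z u‖ ^ 2) δ)⁻¹) ^ j *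
        (max 0 (min (‖z u‖ ^ 2 - δ) (s - ‖z u‖ ^ 2)) : ℝ)) := fun u => by
      rw [div_pow, sub_eq_neg_add (1 : ℂ), add_pow, Finset.sum_div, Finset.mul_sum]
      exact Finset.sum_congr rfl fun j _ => by rw [neg_pow]; ring
    simp only [this]
    rw [integral_finset_sum _ fun j _ => ci μ (by fun_prop (disch := intros; positivity)), div_pow, add_pow, Finset.sum_div,
      Finset.mul_sum]
    refine norm_sum_le_of_le _ fun j _ => ?_
    rw [integral_const_mul, norm_mul]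
    refine (mul_le_mul_of_nonneg_left (E j) (norm_nonneg _)).trans_eq ?_
    simp
    ring
  refine measure_mono_null (fun u hu => ?_) (measure_union_null A (measure_iUnion_null fun m : ℕ =>
    B (1 / (m + 2)) (1 - 1 / (m + 2)) (by positivity) (by
      rw [sub_pos, div_lt_one (by positivity)]; linarith [m.cast_nonneg (α := ℝ)])
      (sub_lt_self _ (by positivity))))
  by_cases h : ‖z u‖ ^ 2 = 0 ∨ ‖z u‖ ^ 2 = 1
  · left
    rcases h with h | h <;> simp only [mem_ofPred_eq, h] <;> norm_num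
  push Not at h
  have h0 := (sq_nonneg _).lt_of_ne' h.1
  have h1 := (z2 u).lt_of_ne h.2
  obtain ⟨m, hm⟩ := exists_nat_one_div_lt (lt_min h0 (sub_pos.2 h1))
  have : (1 : ℝ) / (m + 2) < 1 / (m + 1) := by gcongr; norm_num
  rw [lt_min_iff] at hm
  refine .inr (mem_iUnion.2 ⟨m, ?_, by grind⟩)
  have e : z u ^ 2 = -((‖z u‖ ^ 2 : ℝ) : ℂ) := by
    have : (z u).re = 0 := hu
    rw [Complex.sq_norm, Complex.normSq_apply]
    apply Complex.ext <;> simp [sq, this]
  rw [max_eq_left (by linarith), e, neg_mul, ← Complex.ofReal_mul, mul_inv_cancel₀ h.1]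
  norm_num

end Pool.Agent.H.MP_ab521b_an
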