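import Pool.Agent.H.MP_ab521b_an.A

set_option autoImplicit false
open Set Filter Topology MeasureTheory Metric ComplexConjugate Pointwise

namespace Pool.Agent.H.MP_ab521b_an

abbrev V (n : ℕ) := EuclideanSpace ℂ (Fin n)

abbrev Sp (n : ℕ) := sphere (0 : V n) 1

noncomputable abbrev sg (n : ℕ) : Measure (Sp n) := (volume : Measure (V n)).toSphere

variable {n : ℕ}

lemma inv (W : V n ≃ₗᵢ[ℝ] V n) (F : V n → ℂ) : ∫ u : Sp n, F (W u) ∂sg n = ∫ u : Sp n, F u ∂sg n := by
  let h : Sp n ≃ₜ Sp n := W.toHomeomorph.subtype fun x => by simp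
  refine MeasurePreserving.integral_comp' (f := h.toMeasurableEquiv) ⟨h.measurable, ?_⟩ fun u => F u
  ext s hs
  rw [Measure.map_apply h.toMeasurableEquiv.measurable hs, Measure.toSphere_apply' _ hs,
    Measure.toSphere_apply' _ (h.toMeasurableEquiv.measurable hs),
    ← W.measurePreserving.measure_preimage_emb W.toHomeomorph.measurableEmbedding
      (Ioo (0 : ℝ) 1 • ((↑) '' s : Set (V n)))]
  congr 2
  ext x
  constructor
  · rintro ⟨r, hr, _, ⟨u, hu, rfl⟩, rfl⟩
    exact ⟨r, hr, _, ⟨h u, hu, rfl⟩, (W.map_smul r u).symm⟩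
  · rintro ⟨r, hr, _, ⟨u, hu, rfl⟩, e⟩
    refine ⟨r, hr, _, ⟨h.symm u, by simpa using hu, rfl⟩, W.injective ?_⟩
    rw [← e, map_smul]
    exact congrArg (r • ·) (W.apply_symm_apply u)

lemma nl (i : Fin n) : sg n {u | u.1 i = 0} = 0 := by
  rw [Measure.toSphere_apply' _ (isClosed_eq (by fun_prop) continuous_const).measurableSet,
    measure_mono_null (fun x hx => ?_) (Measure.addHaar_submodule volume
      ((LinearMap.ker (EuclideanSpace.projₗ (𝕜 := ℂ) i)).restrictScalars ℝ) fun h => ?_), mul_zero]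
  · obtain ⟨r, -, _, ⟨u, hu, rfl⟩, rfl⟩ := hx
    have : u.1 i = 0 := hu
    simp [this]
  · simpa using h.ge (Submodule.mem_top (x := EuclideanSpace.single i (1 : ℂ)))

lemma mono (o : Fin n) (β γ : Fin n → ℕ) (ψ : ℝ → ℂ) (h : β ≠ γ) :
    ∫ u : Sp n, ψ ‖u.1 o‖ * (∏ i, u.1 i ^ β i) * ∏ i, conj (u.1 i) ^ γ i ∂sg n = 0 := by
  classical
  obtain ⟨j, hj⟩ := Function.ne_iff.1 h
  let c : Fin n → Circle := fun i => if i = j then Circle.exp (Real.pi / (β j - γ j)) else 1
  have := inv (.piLpCongrRight 2 fun i => rotation (c i))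
    fun y => ψ ‖y o‖ * (∏ i, y i ^ β i) * ∏ i, conj (y i) ^ γ i
  have e : (∏ i, (c i : ℂ) ^ β i) * ∏ i, conj (c i : ℂ) ^ γ i = -1 := by
    rw [Finset.prod_eq_single j (fun i _ h => by simp [c, h]) (by simp),
      Finset.prod_eq_single j (fun i _ h => by simp [c, h]) (by simp)]
    have : (β j - γ j : ℂ) ≠ 0 := sub_ne_zero.2 (by exact_mod_cast hj)
    simp only [c, if_true, Circle.coe_exp, ← Complex.exp_conj, ← Complex.exp_nat_mul, ← Complex.exp_add,
      ← Complex.exp_pi_mul_I, map_mul, Complex.conj_ofReal, Complex.conj_I]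
    congr 1
    push_cast
    field_simp
    ring
  simp only [LinearIsometryEquiv.piLpCongrRight_apply, rotation_apply, norm_mul, Circle.norm_coe, one_mul,
    mul_pow, map_mul, Finset.prod_mul_distrib] at this
  rw [← neg_eq_self, ← neg_one_mul, ← e, ← integral_const_mul, ← this]
  congr 1; ext; ring

lemma dg (o i : Fin n) (ψ : ℝ → ℝ) (hψ : Continuous ψ) (h0 : ∫ u : Sp n, ψ (‖u.1 o‖ ^ 2) ∂sg n = 0)
    (h1 : ∫ u : Sp n, ‖u.1 o‖ ^ 2 * ψ (‖u.1 o‖ ^ 2) ∂sg n = 0) :
    ∫ u : Sp n, ‖u.1 i‖ ^ 2 * ψ (‖u.1 o‖ ^ 2) ∂sg n = 0 := by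
  classical
  by_cases e : i = o
  · rwa [e]
  have k : ∀ j ∈ Finset.univ.erase o, ∫ u : Sp n, ‖u.1 j‖ ^ 2 * ψ (‖u.1 o‖ ^ 2) ∂sg n =
      ∫ u : Sp n, ‖u.1 i‖ ^ 2 * ψ (‖u.1 o‖ ^ 2) ∂sg n := fun j hj => by
    have := inv (.piLpCongrLeft 2 ℝ ℂ (Equiv.swap i j)) fun y => (‖y i‖ ^ 2 * ψ (‖y o‖ ^ 2) : ℝ)
    rw [integral_complex_ofReal, integral_complex_ofReal, Complex.ofReal_inj] at this
    simpa [Equiv.swap_apply_of_ne_of_ne (Ne.symm e) (Finset.ne_of_mem_erase hj).symm] using this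
  have s : ∑ j, ∫ u : Sp n, ‖u.1 j‖ ^ 2 * ψ (‖u.1 o‖ ^ 2) ∂sg n = 0 := by
    rw [← integral_finsetSum _ fun j _ => ci _ (by fun_prop), ← h0]
    congr 1; ext u
    rw [← Finset.sum_mul, ← EuclideanSpace.norm_sq_eq, norm_eq_of_mem_sphere u]; simp
  rw [← Finset.add_sum_erase _ _ (Finset.mem_univ o), h1, zero_add, Finset.sum_congr rfl k,
    Finset.sum_const, nsmul_eq_mul, mul_eq_zero] at s
  exact s.resolve_left (by exact_mod_cast Finset.card_ne_zero_of_mem (a := i) (by simp [e]))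

lemma orth (o i : Fin n) (k : ℕ) (φ : ℝ → ℝ) (hφ : Continuous φ)
    (h0 : ∫ u : Sp n, (‖u.1 o‖ ^ 2) ^ k * φ (‖u.1 o‖ ^ 2) ∂sg n = 0)
    (h1 : ∫ u : Sp n, (‖u.1 o‖ ^ 2) ^ (k + 1) * φ (‖u.1 o‖ ^ 2) ∂sg n = 0) (H : MvPolynomial (Fin n) ℂ) :
    ∫ u : Sp n, u.1 o ^ k * φ (‖u.1 o‖ ^ 2) * (conj (u.1 i) * H.eval u.1) ∂sg n = 0 ∧
    ∫ u : Sp n, u.1 o ^ k * φ (‖u.1 o‖ ^ 2) * (u.1 i * conj (H.eval u.1)) ∂sg n = 0 := by
  classical
  have cH : ∀ H : MvPolynomial (Fin n) ℂ, Continuous fun u : Sp n => H.eval u.1 := fun H =>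
    H.continuous_eval.comp (by fun_prop)
  have d := dg o i (fun x => x ^ k * φ x) (by fun_prop) h0 (by simpa [pow_succ', mul_assoc] using h1)
  have sq : ∀ w : ℂ, w * conj w = (‖w‖ ^ 2 : ℝ) := fun w => by rw [Complex.mul_conj, Complex.sq_norm]
  have ps : ∀ (j : Fin n) (m : ℕ) (y : Fin n → ℂ), ∏ i, y i ^ (Pi.single j m : Fin n → ℕ) i = y j ^ m :=
    fun j m y => by rw [Finset.prod_eq_single j (fun i _ h => by simp [h]) (by simp)]; simp
  induction H using MvPolynomial.induction_on' with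
  | add p q hp hq =>
    have := cH p
    have := cH q
    simp only [map_add, mul_add]
    rw [integral_add (ci _ (by fun_prop)) (ci _ (by fun_prop)),
      integral_add (ci _ (by fun_prop)) (ci _ (by fun_prop)), hp.1, hp.2, hq.1, hq.2]
    simp
  | monomial s a =>
    simp only [MvPolynomial.eval_monomial, Finsupp.prod_fintype _ _ fun _ => pow_zero _, map_mul, map_prod,
      map_pow]
    constructor
    · have : ∫ u : Sp n, φ (‖u.1 o‖ ^ 2) * (∏ j, u.1 j ^ (⇑s + Pi.single o k : Fin n → ℕ) j) *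
          ∏ j, conj (u.1 j) ^ (Pi.single i 1 : Fin n → ℕ) j ∂sg n = 0 := by
        by_cases e : (⇑s + Pi.single o k : Fin n → ℕ) = Pi.single i 1
        · simp only [e, ps, pow_one, mul_assoc, sq, ← Complex.ofReal_mul, integral_complex_ofReal,
            Complex.ofReal_eq_zero]
          rcases k.eq_zero_or_pos with rfl | hk
          · simpa [mul_comm] using d
          · have := congrFun e o
            by_cases h : o = i
            · subst h
              obtain rfl : k = 1 := by simp at this; omega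
              simpa [mul_comm] using h0
            · simp [h] at this; omega
        · exact mono o _ _ (fun x => φ (x ^ 2)) e
      rw [← mul_zero a, ← this, ← integral_const_mul]
      congr 1; ext u
      simp only [Pi.add_apply, pow_add, Finset.prod_mul_distrib, ps]; ring
    · have : ∫ u : Sp n, φ (‖u.1 o‖ ^ 2) * (∏ j, u.1 j ^ (Pi.single i 1 + Pi.single o k : Fin n → ℕ) j) *
          ∏ j, conj (u.1 j) ^ s j ∂sg n = 0 := by
        by_cases e : (Pi.single i 1 + Pi.single o k : Fin n → ℕ) = s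
        · simp only [← e, Pi.add_apply, pow_add, Finset.prod_mul_distrib, ps]
          rw [← Complex.ofReal_zero, ← d, ← integral_complex_ofReal]
          congr 1; ext u
          rw [Complex.ofReal_mul, Complex.ofReal_mul, Complex.ofReal_pow _ k, ← sq, ← sq]; ring
        · exact mono o _ _ (fun x => φ (x ^ 2)) e
      rw [← mul_zero (conj a), ← this, ← integral_const_mul]
      congr 1; ext u
      simp only [Pi.add_apply, pow_add, Finset.prod_mul_distrib, ps]; ring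

lemma main (hn : 2 ≤ n) (μ : Measure (Sp n)) [IsProbabilityMeasure μ]
    (hμ : ∀ g : C(Sp n, ℂ), (∀ (k : Fin n) (α : Fin n → ℕ),
      ∫ u, g u * (conj (u.1 k) * ∏ j, u.1 j ^ α j) ∂sg n = 0 ∧
      ∫ u, g u * (u.1 k * ∏ j, conj (u.1 j) ^ α j) ∂sg n = 0) → ∫ u, g u ∂μ = 0)
    (L : Submodule ℝ (V n)) (hL : L ≠ ⊤) : μ {u | u.1 ∈ L} = 0 := by
  classical
  let o : Fin n := ⟨0, by omega⟩
  let o' : Fin n := ⟨1, by omega⟩
  have oo : o ≠ o' := by simp [o, o']
  obtain ⟨w, w1, w2⟩ := Submodule.exists_mem_ne_zero_of_ne_bot (L.orthogonal_eq_bot_iff.not.2 hL)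
  obtain ⟨b, hb⟩ := Orthonormal.exists_orthonormalBasis_extension_of_card_eq (𝕜 := ℂ) (E := V n)
    (ι := Fin n) (by simp) (v := fun _ => ‖w‖⁻¹ • w) (s := {o})
    ⟨fun _ => norm_smul_inv_norm (𝕜 := ℝ) w2, Subsingleton.pairwise⟩
  have n1 : ∀ (u : Sp n) (i : Fin n), ‖u.1 i‖ ≤ 1 := fun u i =>
    (PiLp.norm_apply_le u.1 i).trans_eq (norm_eq_of_mem_sphere u)
  refine measure_mono_null (fun u hu => ?_) (core (σ := sg n) (μ := μ) (t := fun u => ‖u.1 o‖ ^ 2)
    (z := fun u => b.repr u.1 o) (by fun_prop) (by fun_prop) (fun _ => sq_nonneg _)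
    (fun u => pow_le_one₀ (norm_nonneg _) (n1 u o))
    (fun u => (PiLp.norm_apply_le _ o).trans_eq (by simp)) (fun x hx => ?_)
    (measure_mono_null (fun u hu => ?_) (measure_union_null (nl o) (nl o'))) fun k φ hφ h0 h1 => ?_)
  · have := (L.mem_orthogonal' _).1 (Lᗮ.smul_mem ‖w‖⁻¹ w1) u hu
    simp only [mem_ofPred_eq, b.repr_apply_apply, hb o rfl]
    generalize ‖w‖⁻¹ • w = v at *
    simpa [PiLp.inner_apply] using this
  · refine ⟨⟨EuclideanSpace.single o (√x : ℂ) + EuclideanSpace.single o' (√(1 - x) : ℂ), ?_⟩, ?_⟩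
    · rw [mem_sphere_zero_iff_norm, ← sq_eq_sq₀ (norm_nonneg _) one_pos.le, sq,
        norm_add_sq_eq_norm_sq_add_norm_sq_of_inner_eq_zero (𝕜 := ℂ)]
      · simp [hx.1, hx.2]
      · simp [EuclideanSpace.inner_single_left, oo]
    · simp [oo, hx.1]
  · rcases hu with h | h
    · left; simpa using h
    · right
      have := EuclideanSpace.norm_sq_eq u.1
      rw [norm_eq_of_mem_sphere u, ← Finset.add_sum_erase _ _ (Finset.mem_univ o), h] at this
      have := (Finset.sum_eq_zero_iff_of_nonneg fun _ _ => sq_nonneg _).1 (by linarith :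
        ∑ x ∈ Finset.univ.erase o, ‖u.1 x‖ ^ 2 = 0) o' (by simp [oo.symm])
      simpa using this
  refine hμ ⟨fun u => b.repr u.1 o ^ k * φ (‖b.repr u.1 o‖ ^ 2), by fun_prop⟩ fun m α => ?_
  let W : V n ≃ₗᵢ[ℝ] V n := ⟨b.repr.symm.toLinearEquiv.restrictScalars ℝ, b.repr.symm.norm_map⟩
  have w : ∀ y, W y = b.repr.symm y := fun _ => rfl
  have w' : ∀ (y : V n) j, b.repr.symm y j = ∑ i, y i * b i j := fun y j => by
    rw [← b.sum_repr_symm]; simp
  let H : MvPolynomial (Fin n) ℂ := ∏ j, (∑ i, .X i * .C (b i j)) ^ α j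
  have cH : Continuous fun u : Sp n => H.eval u.1 := H.continuous_eval.comp (by fun_prop)
  have hH : ∀ y : V n, ∏ j, b.repr.symm y j ^ α j = H.eval y := fun y => by simp [H, w']
  have hH' : ∀ y : V n, ∏ j, conj (b.repr.symm y j) ^ α j = conj (H.eval y) := fun y => by
    rw [← hH]; simp
  constructor
  · refine (inv W fun y => b.repr y o ^ k * φ (‖b.repr y o‖ ^ 2) * (conj (y m) * ∏ j, y j ^ α j)).symm.trans ?_
    simp only [w, hH, LinearIsometryEquiv.apply_symm_apply]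
    simp only [w', map_sum, Finset.sum_mul, Finset.mul_sum]
    rw [integral_finsetSum _ fun j _ => ci _ (by fun_prop)]
    refine Finset.sum_eq_zero fun i _ => ?_
    rw [← mul_zero (conj (b i m)), ← (orth o i k φ hφ h0 h1 H).1, ← integral_const_mul]
    congr 1; ext; rw [map_mul]; ring
  · refine (inv W fun y => b.repr y o ^ k * φ (‖b.repr y o‖ ^ 2) * (y m * ∏ j, conj (y j) ^ α j)).symm.trans ?_
    simp only [w, hH', LinearIsometryEquiv.apply_symm_apply]
    simp only [w', Finset.sum_mul, Finset.mul_sum]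
    rw [integral_finsetSum _ fun j _ => ci _ (by fun_prop)]
    refine Finset.sum_eq_zero fun i _ => ?_
    rw [← mul_zero (b i m), ← (orth o i k φ hφ h0 h1 H).2, ← integral_const_mul]
    congr 1; ext; ring

end Pool.Agent.H.MP_ab521b_an
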